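import Pool.Agent.Q249.SF.Stm

/-!
# Project SF, job AT1: the atoms and the coefficients
-/

set_option autoImplicit false

open MeasureTheory Set Filter Topology
open scoped FourierTransform SchwartzMap

namespace Q251.SF

open Q249.SF

lemma it_exp (c : ℂ) (n : ℕ) : iteratedDeriv n (fun x : ℝ => Complex.exp (c * x)) =
    fun x : ℝ => c ^ n * Complex.exp (c * x) := by
  induction n with
  | zero => simp
  | succ n ih =>
    rw [iteratedDeriv_succ, ih]
    funext x
    have h1 : HasDerivAt (fun x : ℝ => c * (x : ℂ)) c x := by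
      simpa using (Complex.ofRealCLM.hasDerivAt (x := x)).const_mul c
    have h2 := (h1.cexp).const_mul (c ^ n)
    rw [h2.deriv]
    ring

lemma exp_smooth (c : ℂ) : ContDiff ℝ (⊤ : ℕ∞) (fun x : ℝ => Complex.exp (c * x)) :=
  (contDiff_const.mul Complex.ofRealCLM.contDiff).cexp

lemma norm_it_exp (l : ℤ) (n : ℕ) (x : ℝ) :
    ‖iteratedFDeriv ℝ n (fun x : ℝ => Complex.exp (2 * Real.pi * Complex.I * l * x)) x‖ =
      (2 * Real.pi * |(l : ℝ)|) ^ n := by
  rw [norm_iteratedFDeriv_eq_norm_iteratedDeriv, it_exp, norm_mul, norm_pow]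
  have h1 : ‖Complex.exp (2 * Real.pi * Complex.I * l * x)‖ = 1 := by
    have : (2 * Real.pi * Complex.I * l * x : ℂ) = ((2 * Real.pi * l * x : ℝ) : ℂ) * Complex.I := by
      push_cast; ring
    rw [this, Complex.norm_exp_ofReal_mul_I]
  have h2 : ‖(2 * Real.pi * Complex.I * l : ℂ)‖ = 2 * Real.pi * |(l : ℝ)| := by
    rw [norm_mul, norm_mul, norm_mul, Complex.norm_I, Complex.norm_real, Complex.norm_two, Real.norm_eq_abs,
      abs_of_pos Real.pi_pos, mul_one]
    congr 1
    exact Complex.norm_intCast l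
  rw [h1, h2, mul_one]

theorem t_AT1 : Q249.SF.S_AT1 := by
  intro χ θ hw
  obtain ⟨hχ, hθ, hχ0, hθ0, hθ1, hsum⟩ := hw
  set Θ : ℝ → ℂ := fun y => (θ y : ℂ) with hΘ
  have hΘc : ContDiff ℝ (⊤ : ℕ∞) Θ := Complex.ofRealCLM.contDiff.comp hθ
  have hΘ0 : ∀ y, 1 / 2 ≤ |y| → Θ y = 0 := fun y hy => by
    rw [hΘ]
    show ((θ y : ℝ) : ℂ) = 0
    rw [hθ0 y hy, Complex.ofReal_zero]
  have hcl : IsClosed {y : ℝ | |y| ≤ 1 / 2} := isClosed_le continuous_abs continuous_const
  have hts : tsupport Θ ⊆ {y : ℝ | |y| ≤ 1 / 2} := by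
    refine closure_minimal ?_ hcl
    intro y hy
    by_contra h
    have h' : ¬ |y| ≤ 1 / 2 := h
    exact hy (hΘ0 y (not_le.1 h').le)
  have hcs : HasCompactSupport Θ := by
    refine HasCompactSupport.of_support_subset_isCompact (K := Metric.closedBall (0 : ℝ) (1 / 2)) (isCompact_closedBall 0 (1 / 2)) ?_
    intro y hy
    have := hts (subset_tsupport _ hy)
    rw [mem_closedBall_zero_iff]
    exact this
  -- the atoms
  have hG : ∀ l : ℤ, ContDiff ℝ (⊤ : ℕ∞) (fun x : ℝ => Complex.exp (2 * Real.pi * Complex.I * l * x)) := fun l =>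
    exp_smooth _
  have hF : ∀ k : ℤ, ContDiff ℝ (⊤ : ℕ∞) (fun x : ℝ => Θ (x - k / 4)) := fun k => by
    exact hΘc.comp (contDiff_id.sub contDiff_const)
  have hsupp : ∀ a : ℤ × ℤ, HasCompactSupport (fun x : ℝ => Θ (x - a.1 / 4) * Complex.exp (2 * Real.pi * Complex.I * a.2 * x)) := by
    intro a
    refine HasCompactSupport.of_support_subset_isCompact (K := Metric.closedBall ((a.1 : ℝ) / 4) (1 / 2)) (isCompact_closedBall _ _) ?_
    intro x hx
    rw [Metric.mem_closedBall, Real.dist_eq]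
    by_contra h
    apply hx
    show Θ (x - a.1 / 4) * _ = 0
    rw [hΘ0 _ (not_le.1 h).le, zero_mul]
  set φ : ℤ × ℤ → 𝓢(ℝ, ℂ) := fun a => (hsupp a).toSchwartzMap ((hF a.1).mul (hG a.2)) with hφ
  -- the coefficients
  have hχc : Continuous χ := hχ.continuous
  have hint : ∀ (a : ℤ × ℤ) (f : 𝓢(ℝ, ℂ)), Integrable fun y : ℝ =>
      f y * ((χ (y - a.1 / 4) : ℂ) * Complex.exp (-2 * Real.pi * Complex.I * a.2 * y)) := by
    intro a f
    refine Continuous.integrable_of_hasCompactSupport ?_ ?_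
    · refine f.continuous.mul (Continuous.mul ?_ ?_)
      · exact Complex.continuous_ofReal.comp (hχc.comp (continuous_id.sub continuous_const))
      · exact Complex.continuous_exp.comp (continuous_const.mul Complex.continuous_ofReal)
    · refine HasCompactSupport.of_support_subset_isCompact (K := Metric.closedBall ((a.1 : ℝ) / 4) (1 / 4)) (isCompact_closedBall _ _) ?_
      intro x hx
      rw [Metric.mem_closedBall, Real.dist_eq]
      by_contra h
      apply hx
      show f x * ((χ (x - a.1 / 4) : ℂ) * _) = 0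
      rw [hχ0 _ (not_le.1 h).le, Complex.ofReal_zero, zero_mul, mul_zero]
  set c : ℤ × ℤ → 𝓢(ℝ, ℂ) →ₗ[ℂ] ℂ := fun a =>
    { toFun := fun f => ∫ y : ℝ, f y * ((χ (y - a.1 / 4) : ℂ) * Complex.exp (-2 * Real.pi * Complex.I * a.2 * y))
      map_add' := by
        intro f g
        rw [← integral_add (hint a f) (hint a g)]
        congr 1
        funext y
        rw [add_apply]
        ring
      map_smul' := by
        intro z f
        rw [RingHom.id_apply, smul_eq_mul, ← integral_const_mul]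
        congr 1
        funext y
        rw [smul_apply, smul_eq_mul]
        ring } with hc
  refine ⟨φ, c, ⟨fun a x => rfl, fun a f => rfl⟩, ?_⟩
  intro m n
  -- bounds for the derivatives of `Θ`
  have hB : ∀ i : ℕ, ∃ B : ℝ, 0 ≤ B ∧ ∀ y, ‖iteratedFDeriv ℝ i Θ y‖ ≤ B := by
    intro i
    obtain ⟨B, hB⟩ := (hΘc.continuous_iteratedFDeriv (m := i) (by exact_mod_cast le_top)).bounded_above_of_compact_support
      (hcs.iteratedFDeriv (𝕜 := ℝ) i)
    exact ⟨B, (norm_nonneg _).trans (hB 0), hB⟩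
  choose B hB0 hB using hB
  set BB : ℝ := ∑ i ∈ Finset.range (n + 1), B i with hBB
  have hBB0 : 0 ≤ BB := Finset.sum_nonneg fun i _ => hB0 i
  have hBi : ∀ i ∈ Finset.range (n + 1), B i ≤ BB := fun i hi =>
    Finset.single_le_sum (f := B) (fun i _ => hB0 i) hi
  have hπ : 3 < Real.pi := Real.pi_gt_three
  refine ⟨2 ^ n * BB * (2 * Real.pi) ^ n, m + n, ?_⟩
  intro a
  set k : ℝ := |(a.1 : ℝ)| with hk
  set l : ℝ := |(a.2 : ℝ)| with hl
  have hk0 : 0 ≤ k := abs_nonneg _
  have hl0 : 0 ≤ l := abs_nonneg _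
  have hM0 : 0 ≤ 2 ^ n * BB * (2 * Real.pi) ^ n * (1 + k + l) ^ (m + n) := by positivity
  refine SchwartzMap.seminorm_le_bound ℂ m n (φ a) hM0 ?_
  intro x
  have hmul := norm_iteratedFDeriv_mul_le (𝕜 := ℝ) (N := ((⊤ : ℕ∞) : WithTop ℕ∞)) (hF a.1) (hG a.2) x (n := n) (by exact_mod_cast le_top)
  have e1 : iteratedFDeriv ℝ n (φ a) x =
      iteratedFDeriv ℝ n (fun y : ℝ => Θ (y - a.1 / 4) * Complex.exp (2 * Real.pi * Complex.I * a.2 * y)) x := rfl
  rw [e1]
  have e2 : ∀ i, iteratedFDeriv ℝ i (fun x : ℝ => Θ (x - a.1 / 4)) x = iteratedFDeriv ℝ i Θ (x - a.1 / 4) := fun i =>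
    iteratedFDeriv_comp_sub i _ x
  simp_rw [e2, norm_it_exp] at hmul
  by_cases hx : |x - a.1 / 4| ≤ 1 / 2
  · have h1 : ∑ i ∈ Finset.range (n + 1), (n.choose i : ℝ) * ‖iteratedFDeriv ℝ i Θ (x - a.1 / 4)‖ *
        (2 * Real.pi * |(a.2 : ℝ)|) ^ (n - i) ≤ 2 ^ n * (BB * (2 * Real.pi * (1 + l)) ^ n) := by
      calc ∑ i ∈ Finset.range (n + 1), (n.choose i : ℝ) * ‖iteratedFDeriv ℝ i Θ (x - a.1 / 4)‖ *
          (2 * Real.pi * |(a.2 : ℝ)|) ^ (n - i) ≤
          ∑ i ∈ Finset.range (n + 1), (n.choose i : ℝ) * (BB * (2 * Real.pi * (1 + l)) ^ n) := by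
            refine Finset.sum_le_sum fun i hi => ?_
            rw [mul_assoc]
            refine mul_le_mul_of_nonneg_left ?_ (Nat.cast_nonneg _)
            have h2 : (2 * Real.pi * |(a.2 : ℝ)|) ^ (n - i) ≤ (2 * Real.pi * (1 + l)) ^ n := by
              calc (2 * Real.pi * |(a.2 : ℝ)|) ^ (n - i) ≤ (2 * Real.pi * (1 + l)) ^ (n - i) := by
                    gcongr
                    rw [← hl]; linarith
                _ ≤ (2 * Real.pi * (1 + l)) ^ n := by
                    apply pow_le_pow_right₀ _ (Nat.sub_le _ _)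
                    nlinarith
            exact mul_le_mul ((hB i _).trans (hBi i hi)) h2 (by positivity) hBB0
        _ = 2 ^ n * (BB * (2 * Real.pi * (1 + l)) ^ n) := by
            rw [← Finset.sum_mul]
            congr 1
            have := Nat.sum_range_choose n
            exact_mod_cast this
    have h3 : ‖x‖ ≤ 1 + k := by
      rw [Real.norm_eq_abs]
      have h4 : |x| ≤ |x - a.1 / 4| + |(a.1 : ℝ) / 4| := by
        have := abs_add_le (x - a.1 / 4) ((a.1 : ℝ) / 4)
        rwa [sub_add_cancel] at this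
      have h5 : |(a.1 : ℝ) / 4| = k / 4 := by rw [abs_div, hk]; norm_num
      linarith
    calc ‖x‖ ^ m * ‖iteratedFDeriv ℝ n (fun y : ℝ => Θ (y - a.1 / 4) * Complex.exp (2 * Real.pi * Complex.I * a.2 * y)) x‖ ≤
        (1 + k) ^ m * (2 ^ n * (BB * (2 * Real.pi * (1 + l)) ^ n)) := by
          refine mul_le_mul ?_ (hmul.trans h1) (norm_nonneg _) (by positivity)
          exact pow_le_pow_left₀ (norm_nonneg _) h3 m
      _ = 2 ^ n * BB * (2 * Real.pi) ^ n * ((1 + k) ^ m * (1 + l) ^ n) := by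
          rw [mul_pow]
          ring
      _ ≤ 2 ^ n * BB * (2 * Real.pi) ^ n * ((1 + k + l) ^ m * (1 + k + l) ^ n) := by
          have h6 : (1 + k) ^ m ≤ (1 + k + l) ^ m := pow_le_pow_left₀ (by linarith) (by linarith) m
          have h7 : (1 + l) ^ n ≤ (1 + k + l) ^ n := pow_le_pow_left₀ (by linarith) (by linarith) n
          refine mul_le_mul_of_nonneg_left ?_ (by positivity)
          exact mul_le_mul h6 h7 (by positivity) (by positivity)
      _ = 2 ^ n * BB * (2 * Real.pi) ^ n * (1 + k + l) ^ (m + n) := by rw [pow_add]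
  · have h1 : ∑ i ∈ Finset.range (n + 1), (n.choose i : ℝ) * ‖iteratedFDeriv ℝ i Θ (x - a.1 / 4)‖ *
        (2 * Real.pi * |(a.2 : ℝ)|) ^ (n - i) = 0 := by
      refine Finset.sum_eq_zero fun i _ => ?_
      have h2 : iteratedFDeriv ℝ i Θ (x - a.1 / 4) = 0 := by
        by_contra hne
        exact hx (hts (support_iteratedFDeriv_subset (𝕜 := ℝ) i hne))
      rw [h2, norm_zero, mul_zero, zero_mul]
    rw [h1] at hmul
    have h3 : ‖iteratedFDeriv ℝ n (fun y : ℝ => Θ (y - a.1 / 4) * Complex.exp (2 * Real.pi * Complex.I * a.2 * y)) x‖ = 0 :=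
      le_antisymm hmul (norm_nonneg _)
    rw [h3, mul_zero]
    exact hM0

end Q251.SF
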