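import Pool.Agent.Q249.SF.Stm

/-!
# Project SF, job WIN: the windows
-/

set_option autoImplicit false

namespace Q251.SF

open Q249.SF Real

theorem t_WIN : Q249.SF.S_WIN := by
  have hs0 : ∀ y : ℝ, y ≤ 0 → Real.smoothTransition y = 0 := fun y hy => Real.smoothTransition.zero_of_nonpos hy
  have hs1 : ∀ y : ℝ, 1 ≤ y → Real.smoothTransition y = 1 := fun y hy => Real.smoothTransition.one_of_one_le hy
  have hsc : ContDiff ℝ (⊤ : ℕ∞) Real.smoothTransition := Real.smoothTransition.contDiff
  have hχ0 : ∀ x : ℝ, 1 / 4 ≤ |x| → Real.smoothTransition (4 * x + 1) - Real.smoothTransition (4 * x) = 0 := by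
    intro x hx
    rcases le_abs.1 hx with h | h
    · rw [hs1 _ (by linarith), hs1 _ (by linarith), sub_self]
    · rw [hs0 _ (by linarith), hs0 _ (by linarith), sub_self]
  refine ⟨fun x => Real.smoothTransition (4 * x + 1) - Real.smoothTransition (4 * x),
    fun x => Real.smoothTransition (2 + 4 * x) * Real.smoothTransition (2 - 4 * x), ?_, ?_, hχ0, ?_, ?_, ?_⟩
  · exact (hsc.comp ((contDiff_const.mul contDiff_id).add contDiff_const)).sub (hsc.comp (contDiff_const.mul contDiff_id))
  · exact (hsc.comp (contDiff_const.add (contDiff_const.mul contDiff_id))).mul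
      (hsc.comp (contDiff_const.sub (contDiff_const.mul contDiff_id)))
  · intro x hx
    rcases le_abs.1 hx with h | h
    · show _ * Real.smoothTransition (2 - 4 * x) = 0
      rw [hs0 (2 - 4 * x) (by linarith), mul_zero]
    · show Real.smoothTransition (2 + 4 * x) * _ = 0
      rw [hs0 (2 + 4 * x) (by linarith), zero_mul]
  · intro x hx
    have h := abs_le.1 hx
    show Real.smoothTransition (2 + 4 * x) * Real.smoothTransition (2 - 4 * x) = 1
    rw [hs1 _ (by linarith [h.1]), hs1 _ (by linarith [h.2]), one_mul]
  · intro x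
    set n : ℤ := ⌊4 * x⌋ with hn
    have h1 : (n : ℝ) ≤ 4 * x := Int.floor_le _
    have h2 : 4 * x < n + 1 := Int.lt_floor_add_one _
    have key := hasSum_sum_of_ne_finset_zero (L := SummationFilter.unconditional ℤ) (f := fun k : ℤ =>
      Real.smoothTransition (4 * (x - k / 4) + 1) - Real.smoothTransition (4 * (x - k / 4))) (s := {n, n + 1}) (by
        intro k hk
        rw [Finset.mem_insert, Finset.mem_singleton, not_or] at hk
        apply hχ0
        rcases lt_or_gt_of_ne hk.1 with h3 | h3
        · have h4 : (k : ℝ) + 1 ≤ n := by exact_mod_cast h3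
          rw [abs_of_nonneg (by linarith)]
          linarith
        · have h5 : n + 1 < k := by omega
          have h4 : (n : ℝ) + 1 + 1 ≤ k := by exact_mod_cast h5
          rw [abs_of_nonpos (by linarith)]
          linarith)
    have e : ∑ k ∈ ({n, n + 1} : Finset ℤ),
        (Real.smoothTransition (4 * (x - k / 4) + 1) - Real.smoothTransition (4 * (x - k / 4))) = 1 := by
      rw [Finset.sum_pair (by omega)]
      have e1 : Real.smoothTransition (4 * (x - (n : ℝ) / 4) + 1) = 1 := hs1 _ (by linarith)
      have e2 : Real.smoothTransition (4 * (x - ((n + 1 : ℤ) : ℝ) / 4)) = 0 := hs0 _ (by push_cast; linarith)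
      have e3 : 4 * (x - ((n + 1 : ℤ) : ℝ) / 4) + 1 = 4 * (x - (n : ℝ) / 4) := by push_cast; ring
      rw [e1, e3, e2]
      ring
    rw [e] at key
    exact key

end Q251.SF
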